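import Pool.Agent.H84.Sym.Defs2

/-!
# Module Q4 of project SYM2: passage to the limit and comparison with the uniform measure
-/

set_option autoImplicit false
set_option linter.unusedSectionVars false

open MeasureTheory Set Filter Topology
open scoped ContDiff Pointwise

namespace Pool.Agent.H84.Sym

open Pool.Agent.H84

universe v

variable {E : Type v} [NormedAddCommGroup E] [InnerProductSpace ℝ E]
    [FiniteDimensional ℝ E] [MeasurableSpace E] [BorelSpace E]

namespace Q4

/-- A `C^1` function with compact support which agrees with `f` near the closed ball. -/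
theorem exists_cut {f : E → ℝ} (hf : ContDiff ℝ 1 f) (R : ℝ) :
    ∃ f' : E → ℝ, ContDiff ℝ 1 f' ∧ HasCompactSupport f' ∧
      ∀ x ∈ Metric.closedBall (0 : E) R, f' x = f x ∧ fderiv ℝ f' x = fderiv ℝ f x := by
  set r : ℝ := |R| + 1 with hr
  have hr0 : 0 < r := by positivity
  let χ : ContDiffBump (0 : E) := ⟨r, r + 1, hr0, by linarith⟩
  refine ⟨fun x => χ x * f x, (χ.contDiff (n := 1)).mul hf, χ.hasCompactSupport.mul_right, ?_⟩
  intro x hx
  have hx' : x ∈ Metric.ball (0 : E) r := by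
    rw [Metric.mem_closedBall, dist_zero_right] at hx
    rw [Metric.mem_ball, dist_zero_right]
    have := le_abs_self R
    linarith
  have hev : (fun y => χ y * f y) =ᶠ[𝓝 x] f := by
    filter_upwards [Metric.isOpen_ball.mem_nhds hx'] with y hy
    have : χ y = 1 := χ.one_of_mem_closedBall (Metric.ball_subset_closedBall hy)
    rw [this, one_mul]
  exact ⟨hev.eq_of_nhds, hev.fderiv_eq⟩

theorem bdd_of_cpt {F : E → ℝ} (hF : Continuous F) (hc : HasCompactSupport F) :
    ∃ A : ℝ, ∀ x, |F x| ≤ A := by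
  obtain ⟨M, hM⟩ := hF.bounded_above_of_compact_support hc
  exact ⟨M, fun x => hM x⟩

/-- The weight. -/
noncomputable def wt (S : Submodule ℝ E) (r : ℝ) (x : E) : ℝ :=
  Real.exp (-(‖Sᗮ.orthogonalProjectionOnto x‖ ^ 2 / (2 * r ^ 2)))

theorem wt_pos (S : Submodule ℝ E) (r : ℝ) (x : E) : 0 < wt S r x := Real.exp_pos _

theorem wt_le_one (S : Submodule ℝ E) (r : ℝ) (x : E) : wt S r x ≤ 1 := by
  rw [wt, Real.exp_le_one_iff]
  have : 0 ≤ ‖Sᗮ.orthogonalProjectionOnto x‖ ^ 2 / (2 * r ^ 2) := by positivity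
  linarith

theorem continuous_wt (S : Submodule ℝ E) (r : ℝ) : Continuous (wt S r) := by
  unfold wt
  fun_prop

/-- Scaled integrals against the approximating measures. -/
theorem scaled {K : Set E} {R : ℝ} (hK : CB K R) (S : Submodule ℝ E) (r : ℝ) {F : E → ℝ}
    (hF : Continuous F) {A : ℝ} (hb : ∀ x, |F x| ≤ A) :
    Tendsto (fun j : ℕ => (cE E (1 / ((j:ℝ) + 1)))⁻¹ * ∫ x, F x ∂(mu (PUS K S r j))) atTop
      (𝓝 (∫ x in K, F x * wt S r x)) := by
  have h := PU_tendsto hK (F := fun x => F x * wt S r x) (hF.mul (continuous_wt S r))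
    (A := A) (B := 0) (fun x => by
      rw [zero_mul, Real.exp_zero, mul_one, abs_mul, abs_of_pos (wt_pos S r x)]
      have h1 := hb x
      have h2 := wt_le_one S r x
      have h3 := abs_nonneg (F x)
      calc |F x| * wt S r x ≤ |F x| * 1 := by gcongr
        _ ≤ A := by linarith)
  refine h.congr fun j => ?_
  congr 1
  have hPc : Measurable (fun x => Real.exp (-PUS K S r j x)) := by
    have h1 : ∀ x, Real.exp (-PUS K S r j x) =
        Real.exp (-PU K (1 / ((j:ℝ) + 1)) (1 / ((j:ℝ) + 1)) x) * wt S r x := by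
      intro x
      rw [PUS, wt, ← Real.exp_add]
      congr 1
      ring
    simp only [h1]
    have hj : (0:ℝ) < 1 / ((j:ℝ) + 1) := by positivity
    obtain ⟨C, hP⟩ := PU_pot hK hj hj
    exact ((Real.continuous_exp.comp hP.smooth.continuous.neg).mul (continuous_wt S r)).measurable
  rw [mu, integral_withDensity_eq_integral_toReal_smul hPc.ennreal_ofReal
    (Eventually.of_forall fun x => ENNReal.ofReal_lt_top)]
  refine integral_congr_ae (Eventually.of_forall fun x => ?_)
  simp only [smul_eq_mul]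
  rw [ENNReal.toReal_ofReal (Real.exp_pos _).le, PUS, neg_add, Real.exp_add, wt]
  ring

end Q4

open Q4 in
theorem pc_of_PUS {K : Set E} {R : ℝ} (hK : CB K R) (S : Submodule ℝ E) {r L Λ : ℝ}
    (hr : 0 < r) (hKr : ∀ x ∈ K, ‖Sᗮ.orthogonalProjectionOnto x‖ ^ 2 ≤ r ^ 2)
    (hL : 0 ≤ L) (hΛ : 33 / 20 * L ≤ Λ ^ 2)
    (h : ∀ᶠ j : ℕ in atTop, GPC (mu (PUS K S r j)) L) : PC K Λ := by
  intro f hf
  obtain ⟨f', hf'1, hf'c, hf'e⟩ := exists_cut hf R
  have c0 : Continuous f' := hf'1.continuous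
  have cd : Continuous (fun x => fderiv ℝ f' x) := hf'1.continuous_fderiv one_ne_zero
  have c1 : Continuous (fun x => f' x ^ 2) := c0.pow 2
  have c2 : Continuous (fun x => ‖fderiv ℝ f' x‖ ^ 2) := cd.norm.pow 2
  have s1 : HasCompactSupport (fun x => f' x ^ 2) := by
    apply hf'c.comp_left (g := fun y : ℝ => y ^ 2)
    norm_num
  have s2 : HasCompactSupport (fun x => ‖fderiv ℝ f' x‖ ^ 2) := by
    apply (hf'c.fderiv (𝕜 := ℝ)).comp_left (g := fun y : E →L[ℝ] ℝ => ‖y‖ ^ 2)
    simp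
  obtain ⟨A0, hA0⟩ := bdd_of_cpt c0 hf'c
  obtain ⟨A1, hA1⟩ := bdd_of_cpt c1 s1
  obtain ⟨A2, hA2⟩ := bdd_of_cpt c2 s2
  have l0 := scaled hK S r c0 hA0
  have l1 := scaled hK S r c1 hA1
  have l2 := scaled hK S r c2 hA2
  have l3 := scaled hK S r (F := fun _ => (1:ℝ)) continuous_const (A := 1) (fun x => by simp)
  set W : ℝ := ∫ x in K, 1 * wt S r x with hW
  set A : ℝ := ∫ x in K, f' x ^ 2 * wt S r x with hA
  set B : ℝ := ∫ x in K, f' x * wt S r x with hB
  set D : ℝ := ∫ x in K, ‖fderiv ℝ f' x‖ ^ 2 * wt S r x with hD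
  have hle : W * A - B ^ 2 ≤ L * (W * D) := by
    refine le_of_tendsto_of_tendsto ((l3.mul l1).sub (l0.pow 2)) ((l3.mul l2).const_mul L) ?_
    filter_upwards [h] with j hj
    have h1 := hj f' hf'1 hf'c
    have h2 : (mu (PUS K S r j)).real univ = ∫ x, (1:ℝ) ∂(mu (PUS K S r j)) := by
      simp
    rw [h2] at h1
    have h3 : 0 ≤ ((cE E (1 / ((j:ℝ) + 1)))⁻¹) ^ 2 := sq_nonneg _
    have h4 := mul_le_mul_of_nonneg_left h1 h3
    linarith
  -- integrability on the body
  have hKt := hK.lt_top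
  have hint : ∀ {F : E → ℝ}, Continuous F → ∀ {A : ℝ}, (∀ x, |F x| ≤ A) →
      IntegrableOn F K := by
    intro F hF A hb
    exact Measure.integrableOn_of_bounded hKt.ne hF.aestronglyMeasurable
      (ae_of_all _ fun x => by rw [Real.norm_eq_abs]; exact hb x)
  have bw : ∀ x, |wt S r x| ≤ 1 := fun x => by
    rw [abs_of_pos (wt_pos S r x)]
    exact wt_le_one S r x
  have cw := continuous_wt S r
  have iw : IntegrableOn (fun x => wt S r x) K := hint cw bw
  have bmul : ∀ {F : E → ℝ} {A : ℝ}, (∀ x, |F x| ≤ A) → ∀ x, |F x * wt S r x| ≤ A := by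
    intro F A hb x
    rw [abs_mul]
    have h1 := hb x
    have h2 := bw x
    have h3 := abs_nonneg (F x)
    calc |F x| * |wt S r x| ≤ |F x| * 1 := by gcongr
      _ ≤ A := by linarith
  have i0 : IntegrableOn (fun x => f' x) K := hint c0 hA0
  have i1 : IntegrableOn (fun x => f' x ^ 2) K := hint c1 hA1
  have i2 : IntegrableOn (fun x => ‖fderiv ℝ f' x‖ ^ 2) K := hint c2 hA2
  have i0w : IntegrableOn (fun x => f' x * wt S r x) K := hint (c0.mul cw) (bmul hA0)
  have i1w : IntegrableOn (fun x => f' x ^ 2 * wt S r x) K := hint (c1.mul cw) (bmul hA1)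
  have i2w : IntegrableOn (fun x => ‖fderiv ℝ f' x‖ ^ 2 * wt S r x) K :=
    hint (c2.mul cw) (bmul hA2)
  set V := volume.real K with hV
  have hV0 : 0 < V := ENNReal.toReal_pos hK.vol0 hK.lt_top.ne
  set e : ℝ := Real.exp (-(1 / 2)) with he
  have he0 : 0 < e := Real.exp_pos _
  have hwe : ∀ x ∈ K, e ≤ wt S r x := by
    intro x hx
    rw [he, wt]
    apply Real.exp_le_exp.2
    have h1 : ‖Sᗮ.orthogonalProjectionOnto x‖ ^ 2 / (2 * r ^ 2) ≤ 1 / 2 := by
      rw [div_le_iff₀ (by positivity)]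
      have := hKr x hx
      linarith
    linarith
  have hWe : e * V ≤ W := by
    have h1 : ∫ x in K, e = e * V := by
      rw [setIntegral_const, smul_eq_mul, mul_comm, hV]
    rw [← h1, hW]
    refine setIntegral_mono_on (hint continuous_const (A := |e|) fun x => le_rfl)
      (by simpa using iw) hK.meas ?_
    intro x hx
    rw [one_mul]
    exact hwe x hx
  have hW0 : 0 < W := lt_of_lt_of_le (by positivity) hWe
  set c : ℝ := B / W with hc
  -- weighted deviation
  have hdev : ∫ x in K, (f' x - c) ^ 2 * wt S r x = A - B ^ 2 / W := by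
    have h1 : ∀ x, (f' x - c) ^ 2 * wt S r x =
        (f' x ^ 2 * wt S r x - (2 * c) * (f' x * wt S r x)) + c ^ 2 * wt S r x := by
      intro x; ring
    simp only [h1]
    have j1 : IntegrableOn (fun x => f' x ^ 2 * wt S r x - (2 * c) * (f' x * wt S r x)) K :=
      i1w.sub (i0w.const_mul _)
    rw [integral_add j1 (iw.const_mul _),
      integral_sub i1w (i0w.const_mul _), integral_const_mul, integral_const_mul]
    have h2 : ∫ x in K, wt S r x = W := by
      rw [hW]; simp
    rw [h2, ← hA, ← hB, hc]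
    field_simp
    ring
  have hdev2 : ∫ x in K, (f' x - c) ^ 2 * wt S r x ≤ L * D := by
    rw [hdev]
    have h1 : A - B ^ 2 / W = (W * A - B ^ 2) / W := by field_simp
    rw [h1, div_le_iff₀ hW0]
    calc W * A - B ^ 2 ≤ L * (W * D) := hle
      _ = L * D * W := by ring
  have hDle : D ≤ ∫ x in K, ‖fderiv ℝ f' x‖ ^ 2 := by
    refine setIntegral_mono_on i2w i2 hK.meas ?_
    intro x hx
    have h1 := wt_le_one S r x
    have h2 : 0 ≤ ‖fderiv ℝ f' x‖ ^ 2 := by positivity
    nlinarith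
  have idev : IntegrableOn (fun x => (f' x - c) ^ 2) K := by
    have h1 : ∀ x, (f' x - c) ^ 2 = (f' x ^ 2 - (2 * c) * f' x) + c ^ 2 := by
      intro x; ring
    simp only [h1]
    exact (i1.sub (i0.const_mul _)).add (hint continuous_const (A := |c ^ 2|) fun x => le_rfl)
  have hdevle : e * ∫ x in K, (f' x - c) ^ 2 ≤ ∫ x in K, (f' x - c) ^ 2 * wt S r x := by
    rw [← integral_const_mul]
    refine setIntegral_mono_on (idev.const_mul _) ?_ hK.meas ?_
    · have h1 : ∀ x, (f' x - c) ^ 2 * wt S r x =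
          (f' x ^ 2 * wt S r x - (2 * c) * (f' x * wt S r x)) + c ^ 2 * wt S r x := by
        intro x; ring
      simp only [h1]
      exact (i1w.sub (i0w.const_mul _)).add (iw.const_mul _)
    · intro x hx
      have h1 := hwe x hx
      have h2 := sq_nonneg (f' x - c)
      nlinarith
  have hvar : V * (∫ x in K, f' x ^ 2) - (∫ x in K, f' x) ^ 2 ≤
      V * ∫ x in K, (f' x - c) ^ 2 := by
    have h1 : ∀ x, (f' x - c) ^ 2 = (f' x ^ 2 - (2 * c) * f' x) + c ^ 2 := by
      intro x; ring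
    simp only [h1]
    have j1 : IntegrableOn (fun x => f' x ^ 2 - (2 * c) * f' x) K := i1.sub (i0.const_mul _)
    rw [integral_add j1 (hint continuous_const (A := |c ^ 2|) fun x => le_rfl),
      integral_sub i1 (i0.const_mul _), integral_const_mul, setIntegral_const, smul_eq_mul,
      ← hV]
    nlinarith [sq_nonneg (V * c - ∫ x in K, f' x)]
  have e0 : ∫ x in K, f' x = ∫ x in K, f x :=
    setIntegral_congr_fun hK.meas fun x hx => (hf'e x (hK.sub hx)).1
  have e1 : ∫ x in K, f' x ^ 2 = ∫ x in K, f x ^ 2 :=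
    setIntegral_congr_fun hK.meas fun x hx => by
      show f' x ^ 2 = f x ^ 2
      rw [(hf'e x (hK.sub hx)).1]
  have e2 : ∫ x in K, ‖fderiv ℝ f' x‖ ^ 2 = ∫ x in K, ‖fderiv ℝ f x‖ ^ 2 :=
    setIntegral_congr_fun hK.meas fun x hx => by
      show ‖fderiv ℝ f' x‖ ^ 2 = ‖fderiv ℝ f x‖ ^ 2
      rw [(hf'e x (hK.sub hx)).2]
  rw [e0, e1] at hvar
  rw [e2] at hDle
  set G := ∫ x in K, ‖fderiv ℝ f x‖ ^ 2 with hG
  have hG0 : 0 ≤ G := integral_nonneg fun x => by positivity
  set Q := ∫ x in K, (f' x - c) ^ 2 with hQ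
  have hee : 1 ≤ 33 / 20 * e := by
    have h1 : Real.exp (1 / 2) ≤ 33 / 20 := by
      have h2 : Real.exp (1 / 2) ^ 2 ≤ (33 / 20) ^ 2 := by
        rw [← Real.exp_nat_mul]
        have h3 : ((2:ℕ):ℝ) * (1 / 2) = 1 := by norm_num
        rw [h3]
        have := Real.exp_one_lt_d9
        norm_num
        linarith
      exact (pow_le_pow_iff_left₀ (Real.exp_pos _).le (by norm_num) two_ne_zero).1 h2
    have h4 : Real.exp (1 / 2) * e = 1 := by
      rw [he, ← Real.exp_add]
      norm_num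
    nlinarith
  have hQ1 : Q ≤ 33 / 20 * (L * G) := by
    have h1 : e * Q ≤ L * G := by
      calc e * Q ≤ _ := hdevle
        _ ≤ L * D := hdev2
        _ ≤ L * G := by gcongr
    have h2 : 0 ≤ Q := integral_nonneg fun x => sq_nonneg _
    nlinarith
  calc V * (∫ x in K, f x ^ 2) - (∫ x in K, f x) ^ 2 ≤ V * Q := hvar
    _ ≤ V * (33 / 20 * (L * G)) := by gcongr
    _ = (33 / 20 * L) * (V * G) := by ring
    _ ≤ Λ ^ 2 * (V * G) := by
        have : 0 ≤ V * G := by positivity
        gcongr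

end Pool.Agent.H84.Sym
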